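import Mathlib

/-!
A tree (the path with 17 edges, drawn as a cubic helix) whose amplitude has negative real part.
-/

namespace Pool.Agent.Results.MP_84cbe7_co.Helix

open Finset

/-- The symplectic form on `ℂ²`. -/
def om (a b : Fin 2 → ℂ) : ℂ := a 0 * b 1 - a 1 * b 0

/-- The matrix `u · σ = u₁ σ₁ + u₂ σ₂ + u₃ σ₃` (Pauli matrices). -/
noncomputable def pauli (u : EuclideanSpace ℝ (Fin 3)) : Matrix (Fin 2) (Fin 2) ℂ :=
  (u 0 : ℂ) • !![0, 1; 1, 0] + (u 1 : ℂ) • !![0, -Complex.I; Complex.I, 0] +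
    (u 2 : ℂ) • !![1, 0; 0, -1]

/-- The unit vector from `p` towards `q`. -/
noncomputable def dir (p q : EuclideanSpace ℝ (Fin 3)) : EuclideanSpace ℝ (Fin 3) :=
  ‖q - p‖⁻¹ • (q - p)

open Classical in
/-- The amplitude: darts are the ordered pairs of adjacent vertices, the sum runs over the
permutations of the darts that preserve the first vertex. -/
noncomputable def amp {n : ℕ} (G : SimpleGraph (Fin n)) (ψ : G.Dart → Fin 2 → ℂ)
    (Δ : Finset G.Dart) : ℂ :=
  (∑ σ ∈ univ.filter (fun σ : Equiv.Perm G.Dart => ∀ d, (σ d).fst = d.fst),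
      ∏ d ∈ Δ, om (ψ (σ d)) (ψ (σ d.symm))) / ∏ d ∈ Δ, om (ψ d) (ψ d.symm)

/-! ### transfer recursion -/

def tr {R : Type} [CommSemiring R] (W : ℕ → Bool → Bool → R) (e : Bool → R) :
    ℕ → ℕ → Bool → R
  | 0, _, s => e s
  | m + 1, k, s => W k s false * tr W e m (k + 1) false + W k s true * tr W e m (k + 1) true

lemma sum_eq_tr {R : Type} [CommSemiring R] (W : ℕ → Bool → Bool → R) (e : Bool → R) (m : ℕ) :
    ∀ (k : ℕ) (s : Bool), ∑ b : Fin m → Bool,
      (∏ i : Fin m, W (k + i) ((Fin.cons s b : Fin (m + 1) → Bool) i.castSucc) (b i)) *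
        e ((Fin.cons s b : Fin (m + 1) → Bool) (Fin.last m)) = tr W e m k s := by
  induction m with
  | zero => intro k s; simp [tr]
  | succ m ih =>
    intro k s
    rw [← (Fin.consEquiv (fun _ : Fin (m + 1) => Bool)).sum_comp, Fintype.sum_prod_type,
      Fintype.sum_bool, tr, ← ih, ← ih, add_comm, Finset.mul_sum, Finset.mul_sum]
    congr 1
    all_goals
      refine Finset.sum_congr rfl fun b _ => ?_
      rw [Fin.prod_univ_succ, ← mul_assoc]
      congr 1
      congr 1
      refine Finset.prod_congr rfl fun i _ => ?_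
      have h1 : k + ((i.succ : Fin (m + 1)) : ℕ) = k + 1 + i := by
        rw [Fin.val_succ]; ring
      rw [h1, ← Fin.succ_castSucc]
      rfl

lemma map_tr {R S : Type} [CommSemiring R] [CommSemiring S] (f : R →+* S)
    (W : ℕ → Bool → Bool → R) (e : Bool → R) (m : ℕ) :
    ∀ (k : ℕ) (s : Bool), tr (fun k a b => f (W k a b)) (fun a => f (e a)) m k s =
      f (tr W e m k s) := by
  induction m with
  | zero => intro k s; rfl
  | succ m ih => intro k s; simp only [tr, ih, map_add, map_mul]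

/-! ### the configuration -/

abbrev G : SimpleGraph (Fin 18) := SimpleGraph.pathGraph 18

lemma adj_iff (i j : Fin 18) : G.Adj i j ↔ i.val + 1 = j.val ∨ j.val + 1 = i.val :=
  SimpleGraph.pathGraph_adj

/-- twice the spinors, as Gaussian integers -/
def P (r : ℕ) : GaussianInt × GaussianInt :=
  if r = 0 then (⟨1, 1⟩, ⟨1, 1⟩) else if r = 1 then (⟨1, 1⟩, ⟨-1, 1⟩) else (⟨2, 0⟩, ⟨0, 0⟩)

def Q (r : ℕ) : GaussianInt × GaussianInt :=
  if r = 0 then (⟨-1, 1⟩, ⟨1, -1⟩) else if r = 1 then (⟨1, 1⟩, ⟨1, -1⟩) else (⟨0, 0⟩, ⟨2, 0⟩)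

def Ψ (i j : ℕ) : GaussianInt × GaussianInt := if j = i + 1 then P (i % 3) else Q (j % 3)

noncomputable def toV (p : GaussianInt × GaussianInt) : Fin 2 → ℂ :=
  ![GaussianInt.toComplex p.1 / 2, GaussianInt.toComplex p.2 / 2]

def omZ (a b : GaussianInt × GaussianInt) : GaussianInt := a.1 * b.2 - a.2 * b.1

lemma om_toV (a b : GaussianInt × GaussianInt) :
    om (toV a) (toV b) = GaussianInt.toComplex (omZ a b) / 4 := by
  simp only [om, toV, omZ, map_sub, map_mul, Matrix.cons_val_zero, Matrix.cons_val_one]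
  ring

noncomputable def ψ (d : G.Dart) : Fin 2 → ℂ := toV (Ψ d.fst.val d.snd.val)

noncomputable def X (k : ℕ) : EuclideanSpace ℝ (Fin 3) :=
  !₂[(((k + 2) / 3 : ℕ) : ℝ), (((k + 1) / 3 : ℕ) : ℝ), ((k / 3 : ℕ) : ℝ)]

def fwd (k : Fin 17) : G.Dart :=
  ⟨(k.castSucc, k.succ), (adj_iff _ _).2 (Or.inl (by simp))⟩

lemma fwd_inj : Function.Injective fwd := by
  intro a b h
  have := congrArg (fun d : G.Dart => d.fst.val) h
  exact Fin.ext (by simpa [fwd] using this)

def Δ : Finset G.Dart := univ.map ⟨fwd, fwd_inj⟩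

lemma dart_ext {d e : G.Dart} (h1 : d.fst.val = e.fst.val) (h2 : d.snd.val = e.snd.val) :
    d = e := SimpleGraph.Dart.ext _ _ (Prod.ext (Fin.ext h1) (Fin.ext h2))

lemma mem_Δ (d : G.Dart) : d ∈ Δ ↔ d.fst.val + 1 = d.snd.val := by
  simp only [Δ, mem_map, mem_univ, true_and, Function.Embedding.coeFn_mk]
  constructor
  · rintro ⟨k, rfl⟩; simp [fwd]
  · intro h
    have := d.snd.isLt
    exact ⟨⟨d.fst.val, by omega⟩, dart_ext (by simp [fwd]) (by simp [fwd, h])⟩

/-- swap the two darts at the marked interior vertices -/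
def sw (c : Fin 18 → Bool) (d : G.Dart) : G.Dart :=
  if h : c d.fst = true ∧ 0 < d.fst.val ∧ d.fst.val < 17 then
    ⟨(d.fst, ⟨2 * d.fst.val - d.snd.val, by
        have := (adj_iff _ _).1 d.adj; omega⟩),
      (adj_iff _ _).2 (by have := (adj_iff _ _).1 d.adj; simp only; omega)⟩
  else d

lemma sw_fst (c : Fin 18 → Bool) (d : G.Dart) : (sw c d).fst = d.fst := by
  unfold sw; split_ifs <;> rfl

lemma sw_snd (c : Fin 18 → Bool) (d : G.Dart) : (sw c d).snd.val =
    if c d.fst = true ∧ 0 < d.fst.val ∧ d.fst.val < 17 then 2 * d.fst.val - d.snd.val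
    else d.snd.val := by
  unfold sw; split_ifs <;> rfl

lemma sw_inv (c : Fin 18 → Bool) : Function.Involutive (sw c) := by
  intro d
  refine dart_ext (by rw [sw_fst, sw_fst]) ?_
  rw [sw_snd, sw_fst, sw_snd]
  have := (adj_iff _ _).1 d.adj
  split_ifs <;> omega

def sp (b : Fin 17 → Bool) : Equiv.Perm G.Dart := (sw_inv (Fin.cons false b)).toPerm

lemma sp_apply (b : Fin 17 → Bool) (d : G.Dart) : sp b d = sw (Fin.cons false b) d := rfl

def W (k : ℕ) (s t : Bool) : GaussianInt :=
  omZ (Ψ k (if s then k - 1 else k + 1)) (Ψ (k + 1) (if t then k + 2 else k))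

def e (s : Bool) : GaussianInt := if s then 0 else 1

lemma tr_val : tr W e 17 0 false = ⟨-805205704704, 8641843298304⟩ := by decide +kernel

lemma den_val : ∀ k : Fin 17, omZ (Ψ k (k + 1)) (Ψ (k + 1) k) = 4 := by decide +kernel

lemma den : ∏ d ∈ Δ, om (ψ d) (ψ d.symm) = 1 := by
  rw [Δ, Finset.prod_map]
  refine Finset.prod_eq_one fun k _ => ?_
  have : om (ψ (fwd k)) (ψ (fwd k).symm) =
      GaussianInt.toComplex (omZ (Ψ k (k + 1)) (Ψ (k + 1) k)) / 4 := by
    rw [← om_toV]; simp [ψ, fwd]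
  simp only [Function.Embedding.coeFn_mk]
  rw [this, den_val, map_ofNat]; norm_num

lemma term (b : Fin 17 → Bool) (hb : b (Fin.last 16) = false) :
    ∏ d ∈ Δ, om (ψ (sp b d)) (ψ (sp b d.symm)) =
      ∏ k : Fin 17, GaussianInt.toComplex
        (W k ((Fin.cons false b : Fin 18 → Bool) k.castSucc) (b k)) / 4 := by
  rw [Δ, Finset.prod_map]
  refine Finset.prod_congr rfl fun k _ => ?_
  simp only [Function.Embedding.coeFn_mk, W]
  rw [← om_toV, ψ, ψ, sp_apply, sp_apply, sw_fst, sw_fst, sw_snd, sw_snd]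
  have hk := k.isLt
  have e1 : (fwd k).fst = k.castSucc := rfl
  have e2 : (fwd k).snd = k.succ := rfl
  have e3 : (fwd k).symm.fst = k.succ := rfl
  have e4 : (fwd k).symm.snd = k.castSucc := rfl
  rw [e1, e2, e3, e4, Fin.cons_succ, Fin.val_castSucc, Fin.val_succ]
  congr 3
  · by_cases h : (Fin.cons false b : Fin 18 → Bool) k.castSucc = true
    · have h0 : 0 < k.val := by
        rcases Nat.eq_zero_or_pos k.val with h0 | h0
        · have : k.castSucc = 0 := Fin.ext h0
          rw [this, Fin.cons_zero] at h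
          exact absurd h (by simp)
        · exact h0
      rw [if_pos ⟨h, h0, hk⟩, if_pos h]; omega
    · rw [if_neg (fun hh => h hh.1), if_neg h]
  · by_cases h : b k = true
    · have h0 : k.val + 1 < 17 := by
        by_contra h0
        have : k = Fin.last 16 := Fin.ext (by simp only [Fin.val_last]; omega)
        rw [this, hb] at h
        exact absurd h (by simp)
      rw [if_pos ⟨h, by omega, h0⟩, if_pos h]; omega
    · rw [if_neg (fun hh => h hh.1), if_neg h]

open Classical in
lemma num : (∑ σ ∈ univ.filter (fun σ : Equiv.Perm G.Dart => ∀ d, (σ d).fst = d.fst),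
      ∏ d ∈ Δ, om (ψ (σ d)) (ψ (σ d.symm))) =
    ∑ b ∈ univ.filter (fun b : Fin 17 → Bool => b (Fin.last 16) = false),
      ∏ k : Fin 17, GaussianInt.toComplex
        (W k ((Fin.cons false b : Fin 18 → Bool) k.castSucc) (b k)) / 4 := by
  symm
  refine Finset.sum_bij (fun b _ => sp b) ?_ ?_ ?_ ?_
  · intro b _
    simp only [mem_filter, mem_univ, true_and]
    intro d; exact sw_fst _ _
  · intro b hb b' hb' h
    simp only [mem_filter, mem_univ, true_and] at hb hb'
    funext k
    by_cases hk : k = Fin.last 16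
    · rw [hk, hb, hb']
    · have hk' : k.val + 1 < 17 := by
        have h1 := k.isLt
        have h2 : k.val ≠ 16 := fun h2 => hk (Fin.ext h2)
        omega
      have h1 := congrArg (fun σ : Equiv.Perm G.Dart => (σ (fwd k).symm).snd.val) h
      simp only [sp_apply, sw_snd] at h1
      have e3 : (fwd k).symm.fst = k.succ := rfl
      have e4 : (fwd k).symm.snd = k.castSucc := rfl
      rw [e3, e4, Fin.cons_succ, Fin.cons_succ, Fin.val_castSucc, Fin.val_succ] at h1
      cases hb1 : b k <;> cases hb2 : b' k <;> simp [hb1, hb2, hk'] at h1 ⊢ <;> omega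
  · intro σ hσ
    simp only [mem_filter, mem_univ, true_and] at hσ
    have key : ∀ d : G.Dart, σ d ≠ d → 0 < d.fst.val ∧ d.fst.val < 17 ∧
        (σ d).snd.val = 2 * d.fst.val - d.snd.val := by
      intro d hd
      have h1 := (adj_iff _ _).1 d.adj
      have h2 := (adj_iff _ _).1 (σ d).adj
      have h3 : (σ d).fst.val = d.fst.val := by rw [hσ]
      have h4 : (σ d).snd.val ≠ d.snd.val := fun h4 => hd (dart_ext h3 h4)
      have h5 := d.snd.isLt
      have h6 := (σ d).snd.isLt
      omega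
    refine ⟨fun k => decide (∃ d : G.Dart, d.fst = k.succ ∧ σ d ≠ d), ?_, ?_⟩
    · simp only [mem_filter, mem_univ, true_and, decide_eq_false_iff_not]
      rintro ⟨d, hd1, hd2⟩
      have := (key d hd2).2.1
      rw [hd1] at this
      simp at this
    · refine Equiv.ext fun d => dart_ext (by rw [sp_apply, sw_fst, hσ]) ?_
      rw [sp_apply, sw_snd]
      by_cases hd : σ d = d
      · rw [if_neg, hd]
        rintro ⟨h1, h2, h3⟩
        obtain ⟨k, hk⟩ : ∃ k : Fin 17, d.fst = k.succ :=
          ⟨⟨d.fst.val - 1, by omega⟩, Fin.ext (by simp only [Fin.val_succ]; omega)⟩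
        rw [hk, Fin.cons_succ, decide_eq_true_eq] at h1
        obtain ⟨d', hd1, hd2⟩ := h1
        have h4 : d'.fst.val = d.fst.val := by rw [hd1, hk]
        have h5 : d' ≠ d := fun h5 => hd2 (by rw [h5, hd])
        have h6 : σ d' ≠ d := fun h6 => h5 (σ.injective (by rw [h6, hd]))
        have h7 : d'.snd.val ≠ d.snd.val := fun h7 => h5 (dart_ext h4 h7)
        have h8 : (σ d').snd.val ≠ d.snd.val :=
          fun h8 => h6 (dart_ext (by rw [hσ, h4]) h8)
        have h9 := (key d' hd2).2.2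
        have h10 := (adj_iff _ _).1 d.adj
        have h11 := (adj_iff _ _).1 d'.adj
        omega
      · obtain ⟨h2, h3, h4⟩ := key d hd
        obtain ⟨k, hk⟩ : ∃ k : Fin 17, d.fst = k.succ :=
          ⟨⟨d.fst.val - 1, by omega⟩, Fin.ext (by simp only [Fin.val_succ]; omega)⟩
        rw [if_pos, h4]
        refine ⟨?_, h2, h3⟩
        rw [hk, Fin.cons_succ, decide_eq_true_eq]
        exact ⟨d, hk, hd⟩
  · intro b hb
    simp only [mem_filter, mem_univ, true_and] at hb
    exact (term b hb).symm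

lemma amp_re : (amp G ψ Δ).re < 0 := by
  have h1 : amp G ψ Δ = GaussianInt.toComplex (tr W e 17 0 false) / 4 ^ 17 := by
    unfold amp
    rw [den, div_one, ← map_tr, ← sum_eq_tr, Finset.sum_div]
    refine Eq.trans ?_ (num.trans ?_)
    · congr
    · rw [Finset.sum_filter]
      refine Finset.sum_congr rfl fun b _ => ?_
      have : (Fin.cons false b : Fin 18 → Bool) (Fin.last 17) = b (Fin.last 16) := rfl
      rw [this, Finset.prod_div_distrib]
      cases b (Fin.last 16) <;> simp [e]
  rw [h1, tr_val, GaussianInt.toComplex_def']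
  have : ((4 : ℂ) ^ 17) = ((4 ^ 17 : ℝ) : ℂ) := by push_cast; rfl
  rw [this, Complex.div_ofReal_re]
  simp
  norm_num

lemma isTree : G.IsTree := by
  classical
  rw [SimpleGraph.isTree_iff_connected_and_card]
  refine ⟨SimpleGraph.pathGraph_connected 17, ?_⟩
  have h1 : Fintype.card G.Dart = 2 * #G.edgeFinset := G.dart_card_eq_twice_card_edges
  have h2 : Fintype.card G.Dart = 34 := by
    have : (univ : Finset G.Dart) = Δ ∪ Δ.map ⟨SimpleGraph.Dart.symm,
        SimpleGraph.Dart.symm_involutive.injective⟩ := by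
      ext d
      simp only [mem_univ, mem_union, mem_map, Function.Embedding.coeFn_mk, true_iff, mem_Δ]
      rcases (adj_iff _ _).1 d.adj with h | h
      · exact Or.inl h
      · exact Or.inr ⟨d.symm, h, by simp⟩
    rw [← Finset.card_univ, this, Finset.card_union_of_disjoint]
    · simp [Δ]
    · rw [Finset.disjoint_left]
      intro d hd hd'
      simp only [mem_map, Function.Embedding.coeFn_mk, mem_Δ] at hd hd'
      obtain ⟨d', h1, rfl⟩ := hd'
      have e3 : d'.symm.fst = d'.snd := rfl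
      have e4 : d'.symm.snd = d'.fst := rfl
      rw [e3, e4] at hd
      omega
  rw [Nat.card_eq_fintype_card, Nat.card_eq_fintype_card, ← SimpleGraph.edgeFinset_card,
    Fintype.card_fin]
  omega

noncomputable def E (r : ℕ) : EuclideanSpace ℝ (Fin 3) :=
  if r = 0 then !₂[1, 0, 0] else if r = 1 then !₂[0, 1, 0] else !₂[0, 0, 1]

lemma norm_E (r : ℕ) : ‖E r‖ = 1 := by
  unfold E
  split_ifs <;> simp [EuclideanSpace.norm_eq, Fin.sum_univ_three]

lemma X_step (k : ℕ) : X (k + 1) - X k = E (k % 3) := by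
  obtain ⟨q, h | h | h⟩ : ∃ q, k = 3 * q ∨ k = 3 * q + 1 ∨ k = 3 * q + 2 := ⟨k / 3, by omega⟩
  · have a0 : k % 3 = 0 := by omega
    have a1 : (k + 1 + 2) / 3 = q + 1 := by omega
    have a2 : (k + 1 + 1) / 3 = q := by omega
    have a3 : (k + 1) / 3 = q := by omega
    have a4 : (k + 2) / 3 = q := by omega
    have a5 : k / 3 = q := by omega
    ext i
    fin_cases i <;> simp [X, E, a0, a1, a2, a3, a4, a5]
  · have a0 : k % 3 = 1 := by omega
    have a1 : (k + 1 + 2) / 3 = q + 1 := by omega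
    have a2 : (k + 1 + 1) / 3 = q + 1 := by omega
    have a3 : (k + 1) / 3 = q := by omega
    have a4 : (k + 2) / 3 = q + 1 := by omega
    have a5 : k / 3 = q := by omega
    ext i
    fin_cases i <;> simp [X, E, a0, a1, a2, a3, a4, a5]
  · have a0 : k % 3 = 2 := by omega
    have a1 : (k + 1 + 2) / 3 = q + 1 := by omega
    have a2 : (k + 1 + 1) / 3 = q + 1 := by omega
    have a3 : (k + 1) / 3 = q + 1 := by omega
    have a4 : (k + 2) / 3 = q + 1 := by omega
    have a5 : k / 3 = q := by omega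
    ext i
    fin_cases i <;> simp [X, E, a0, a1, a2, a3, a4, a5]

lemma dir_fwd (k : ℕ) : dir (X k) (X (k + 1)) = E (k % 3) := by
  rw [dir, X_step, norm_E]; simp

lemma dir_bwd (k : ℕ) : dir (X (k + 1)) (X k) = -E (k % 3) := by
  rw [dir, ← neg_sub, X_step, norm_neg, norm_E]; simp

lemma good_P (r : ℕ) : (‖toV (P r) 0‖ ^ 2 + ‖toV (P r) 1‖ ^ 2 = 1) ∧
    (pauli (E r)).mulVec (toV (P r)) = toV (P r) := by
  unfold P E
  split_ifs
  all_goals
    constructor
    · simp only [toV, Matrix.cons_val_zero, Matrix.cons_val_one, Complex.sq_norm,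
        GaussianInt.toComplex_def', Complex.normSq_apply]
      simp
      try norm_num
    · ext i
      fin_cases i <;>
        simp [pauli, toV, GaussianInt.toComplex_def', Matrix.mulVec, dotProduct,
          Fin.sum_univ_two, Complex.ext_iff] <;> (try norm_num)

lemma good_Q (r : ℕ) : (‖toV (Q r) 0‖ ^ 2 + ‖toV (Q r) 1‖ ^ 2 = 1) ∧
    (pauli (-E r)).mulVec (toV (Q r)) = toV (Q r) := by
  unfold Q E
  split_ifs
  all_goals
    constructor
    · simp only [toV, Matrix.cons_val_zero, Matrix.cons_val_one, Complex.sq_norm,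
        GaussianInt.toComplex_def', Complex.normSq_apply]
      simp
      try norm_num
    · ext i
      fin_cases i <;>
        simp [pauli, toV, GaussianInt.toComplex_def', Matrix.mulVec, dotProduct,
          Fin.sum_univ_two, Complex.ext_iff] <;> (try norm_num)

/-- There is a finite tree `T`, a configuration `x` with distinct endpoints on every edge,
unit eigenvectors `ψ` and an orientation `Δ` for which the amplitude has negative real part. -/
theorem result : ∃ (n : ℕ) (T : SimpleGraph (Fin n)) (x : Fin n → EuclideanSpace ℝ (Fin 3))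
    (ψ : T.Dart → Fin 2 → ℂ) (Δ : Finset T.Dart),
    T.IsTree ∧ (∀ i j, T.Adj i j → x i ≠ x j) ∧
    (∀ d : T.Dart, ‖ψ d 0‖ ^ 2 + ‖ψ d 1‖ ^ 2 = 1 ∧
      (pauli (dir (x d.fst) (x d.snd))).mulVec (ψ d) = ψ d) ∧
    (∀ d : T.Dart, d ∈ Δ ↔ d.symm ∉ Δ) ∧
    (amp T ψ Δ).re < 0 := by
  have hne : ∀ k : ℕ, X k ≠ X (k + 1) := by
    intro k h
    have := norm_E (k % 3)
    rw [← X_step, ← h] at this
    simp at this
  refine ⟨18, G, fun i => X i.val, ψ, Δ, isTree, ?_, ?_, ?_, amp_re⟩
  · intro i j h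
    rcases (adj_iff _ _).1 h with h | h
    · simp only [← h]; exact hne _
    · simp only [← h]; exact (hne _).symm
  · intro d
    rcases (adj_iff _ _).1 d.adj with h | h
    · simp only [ψ, Ψ, ← h, if_true, dir_fwd]
      exact good_P _
    · have h' : ¬ (d.snd.val = d.snd.val + 1 + 1) := by omega
      simp only [ψ, Ψ, ← h, h', if_false, dir_bwd]
      exact good_Q _
  · intro d
    rw [mem_Δ, mem_Δ]
    have := (adj_iff _ _).1 d.adj
    have e3 : d.symm.fst = d.snd := rfl
    have e4 : d.symm.snd = d.fst := rfl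
    rw [e3, e4]
    omega

end Pool.Agent.Results.MP_84cbe7_co.Helix
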